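import Pool.Agent.W890.SF.Stm

/-! Project SAM, part BDE: small matchings, edge version. -/

set_option autoImplicit false

open Finset

namespace Pool.Agent.W451.SAM

open Pool.Agent.W890.SF

/-! ### binomial coefficients -/

lemma tel1 (N j : ℕ) : ∀ t, t ≤ N →
    N.choose (j + 1) ≤ (N - t).choose (j + 1) + t * (N - 1).choose j := by
  intro t
  induction t with
  | zero => simp
  | succ t ih =>
    intro h
    have h1 := ih (by omega)
    obtain ⟨m, hm⟩ : ∃ m, N - t = m + 1 := ⟨N - t - 1, by omega⟩
    have h2 : N - (t + 1) = m := by omega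
    rw [hm, Nat.choose_succ_succ] at h1
    rw [h2]
    have h3 : m.choose j ≤ (N - 1).choose j := Nat.choose_le_choose j (by omega)
    simp only [Nat.succ_eq_add_one] at h1
    nlinarith

lemma tel2 (n k s : ℕ) :
    s * n.choose k + n.choose (k + 1) ≤ (n + s).choose (k + 1) := by
  induction s with
  | zero => simp
  | succ s ih =>
    rw [← add_assoc, Nat.choose_succ_succ]
    have : n.choose k ≤ (n + s).choose k := Nat.choose_le_choose k (by omega)
    simp only [Nat.succ_eq_add_one]
    nlinarith

lemma half (N j t : ℕ) (h : 2 * (t * j) ≤ N) : N.choose j ≤ 2 * (N - t).choose j := by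
  cases j with
  | zero => simp
  | succ j =>
    by_cases hN : N = 0
    · subst hN
      simp
    · have ht : t ≤ N := by nlinarith
      obtain ⟨M, rfl⟩ : ∃ M, N = M + 1 := ⟨N - 1, by omega⟩
      have h1 := tel1 (M + 1) j t ht
      have h2 := Nat.add_one_mul_choose_eq M j
      simp only [Nat.add_sub_cancel] at h1
      set A := (M + 1).choose (j + 1)
      set B := (M + 1 - t).choose (j + 1)
      set C := M.choose j
      have h3 : (M + 1) * A ≤ (M + 1) * B + t * (A * (j + 1)) := by
        calc (M + 1) * A ≤ (M + 1) * (B + t * C) := Nat.mul_le_mul_left _ h1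
          _ = (M + 1) * B + t * ((M + 1) * C) := by ring
          _ = _ := by rw [h2]
      have h4 : 2 * (t * (A * (j + 1))) ≤ (M + 1) * A := by
        calc 2 * (t * (A * (j + 1))) = 2 * (t * (j + 1)) * A := by ring
          _ ≤ (M + 1) * A := Nat.mul_le_mul_right _ h
      have h5 : (M + 1) * A ≤ (M + 1) * (2 * B) := by nlinarith
      exact Nat.le_of_mul_le_mul_left h5 (by omega)

/-- the numerical inequality, `k = j + 2` -/
lemma numK (j s u : ℕ) (hs : 1 ≤ s) (hu : 2 * (j + 2) ^ 3 * (s + 1) ≤ u) :
    (j + 2) ^ 2 * s * (u - 2).choose j ≤ (u - s).choose (j + 1) := by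
  have hk : (j + 2) ^ 3 = (j + 2) ^ 2 * (j + 2) := by ring
  have hk2 : 4 ≤ (j + 2) ^ 2 := by nlinarith
  have hu1 : 2 * ((s - 1) * j) ≤ u - 2 := by
    obtain ⟨s', rfl⟩ : ∃ s', s = s' + 1 := ⟨s - 1, by omega⟩
    have : 2 * (s' * j) + 2 ≤ u := by
      nlinarith [Nat.zero_le (s' * j), Nat.zero_le s', Nat.zero_le j,
        Nat.mul_le_mul_right ((j + 2) * (s' + 2)) hk2]
    simp only [Nat.add_sub_cancel]
    omega
  have h1 := half (u - 2) j (s - 1) hu1
  have h2 : u - 2 - (s - 1) = u - s - 1 := by omega
  rw [h2] at h1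
  have hus : s + 1 ≤ u := by
    have h1 : 1 ≤ 2 * (j + 2) ^ 3 := by rw [hk]; nlinarith
    have h2 : 1 * (s + 1) ≤ 2 * (j + 2) ^ 3 * (s + 1) := Nat.mul_le_mul_right _ h1
    omega
  obtain ⟨m, hm⟩ : ∃ m, u - s = m + 1 := ⟨u - s - 1, by omega⟩
  have h3 := Nat.add_one_mul_choose_eq m j
  have h4 : u - s - 1 = m := by omega
  rw [h4] at h1
  rw [hm]
  set A := (m + 1).choose (j + 1)
  set B := m.choose j
  -- (m+1) * B = A * (j+1)
  have h5 : 2 * ((j + 2) ^ 2 * s) * (j + 1) ≤ m + 1 := by
    have : u = m + 1 + s := by omega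
    nlinarith [Nat.zero_le ((j + 2) ^ 2 * s), Nat.zero_le ((j + 2) ^ 2 * j)]
  have h6 : (j + 2) ^ 2 * s * (u - 2).choose j * (j + 1) ≤ A * (j + 1) := by
    calc (j + 2) ^ 2 * s * (u - 2).choose j * (j + 1)
        ≤ (j + 2) ^ 2 * s * (2 * B) * (j + 1) :=
          Nat.mul_le_mul_right _ (Nat.mul_le_mul_left _ h1)
      _ = (2 * ((j + 2) ^ 2 * s) * (j + 1)) * B := by ring
      _ ≤ (m + 1) * B := Nat.mul_le_mul_right _ h5
      _ = A * (j + 1) := h3
  exact Nat.le_of_mul_le_mul_right h6 (by omega)

/-! ### degrees -/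

variable {α : Type} [DecidableEq α]

lemma deg_le (U : Finset α) (F : Finset (Finset α)) (k : ℕ) (hF : ∀ e ∈ F, e ⊆ U ∧ e.card = k)
    (W : Finset α) (hW : W ⊆ U) :
    (F.filter (fun e => W ⊆ e)).card ≤ (U.card - W.card).choose (k - W.card) := by
  rw [← Finset.card_sdiff_of_subset hW, ← Finset.card_powersetCard]
  apply Finset.card_le_card_of_injOn (fun e => e \ W)
  · intro e he
    rw [Finset.mem_coe, Finset.mem_filter] at he
    obtain ⟨h1, h2⟩ := hF e he.1
    rw [Finset.mem_coe, Finset.mem_powersetCard]
    refine ⟨Finset.sdiff_subset_sdiff h1 (Finset.Subset.refl _), ?_⟩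
    rw [Finset.card_sdiff_of_subset he.2, h2]
  · intro e he e' he' h
    rw [Finset.mem_coe, Finset.mem_filter] at he he'
    simp only at h
    rw [← Finset.sdiff_union_of_subset he.2, h, Finset.sdiff_union_of_subset he'.2]

lemma dg_le (U : Finset α) (F : Finset (Finset α)) (k : ℕ) (hF : ∀ e ∈ F, e ⊆ U ∧ e.card = k)
    (v : α) (hv : v ∈ U) : dg F v ≤ (U.card - 1).choose (k - 1) := by
  have h := deg_le U F k hF {v} (by simpa using hv)
  rw [Finset.card_singleton] at h
  unfold dg
  refine le_trans (Finset.card_le_card ?_) h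
  intro e he
  rw [Finset.mem_filter] at he ⊢
  exact ⟨he.1, by simpa using he.2⟩

lemma cod_le (U : Finset α) (F : Finset (Finset α)) (k : ℕ) (hF : ∀ e ∈ F, e ⊆ U ∧ e.card = k)
    (v w : α) (hv : v ∈ U) (hw : w ∈ U) (hvw : v ≠ w) :
    (F.filter (fun e => v ∈ e ∧ w ∈ e)).card ≤ (U.card - 2).choose (k - 2) := by
  have h := deg_le U F k hF {v, w} (by
    intro x hx
    rw [Finset.mem_insert, Finset.mem_singleton] at hx
    rcases hx with rfl | rfl
    · exact hv
    · exact hw)
  rw [Finset.card_pair hvw] at h
  refine le_trans (Finset.card_le_card ?_) h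
  intro e he
  rw [Finset.mem_filter] at he ⊢
  refine ⟨he.1, ?_⟩
  intro x hx
  rw [Finset.mem_insert, Finset.mem_singleton] at hx
  rcases hx with rfl | rfl
  · exact he.2.1
  · exact he.2.2

omit [DecidableEq α] in
lemma mtch_sub {M M' : Finset (Finset α)} (h : Mtch M) (hs : M' ⊆ M) : Mtch M' :=
  fun e he e' he' hne => h e (hs he) e' (hs he') hne

lemma mtch_ins {M : Finset (Finset α)} (h : Mtch M) (e : Finset α)
    (he : Disjoint e (M.biUnion id)) : Mtch (insert e M) := by
  have h1 : ∀ f ∈ M, Disjoint e f := by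
    intro f hf
    rw [Finset.disjoint_biUnion_right] at he
    exact he f hf
  intro f hf f' hf' hne
  rw [Finset.mem_insert] at hf hf'
  rcases hf with rfl | hf
  · rcases hf' with rfl | hf'
    · exact absurd rfl hne
    · exact h1 f' hf'
  · rcases hf' with rfl | hf'
    · exact (h1 f hf).symm
    · exact h f hf f' hf' hne

lemma hasM_ins {F M : Finset (Finset α)} (h : Mtch M) (hM : M ⊆ F) (e : Finset α) (heF : e ∈ F)
    (hne : e.Nonempty) (he : Disjoint e (M.biUnion id)) : HasM F (M.card + 1) := by
  refine ⟨insert e M, ?_, mtch_ins h e he, ?_⟩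
  · intro f hf
    rw [Finset.mem_insert] at hf
    rcases hf with rfl | hf
    · exact heF
    · exact hM hf
  · rw [Finset.card_insert_of_notMem]
    intro heM
    have h1 : e ⊆ M.biUnion id := fun x hx => Finset.mem_biUnion.mpr ⟨e, heM, hx⟩
    obtain ⟨x, hx⟩ := hne
    exact (Finset.disjoint_left.mp he hx) (h1 hx)

lemma bde_step (j : ℕ) (U : Finset α) (F : Finset (Finset α)) (s : ℕ)
    (hF : ∀ e ∈ F, e ⊆ U ∧ e.card = j + 2) (hu : 2 * (j + 2) ^ 3 * (s + 1) ≤ U.card)
    (hc : U.card.choose (j + 2) - (U.card - s).choose (j + 2) < F.card) : HasM F (s + 1) := by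
  classical
  induction s generalizing U F with
  | zero =>
    have h0 : 0 < F.card := by omega
    obtain ⟨e, he⟩ := Finset.card_pos.mp h0
    refine ⟨{e}, by simpa using he, ?_, by simp⟩
    intro f hf f' hf' hne
    rw [Finset.mem_singleton] at hf hf'
    exact absurd (hf.trans hf'.symm) hne
  | succ s ih =>
    have hk3 : 8 ≤ (j + 2) ^ 3 := by
      calc 8 = 2 ^ 3 := by norm_num
        _ ≤ (j + 2) ^ 3 := Nat.pow_le_pow_left (by omega) 3
    have husz : s + 2 ≤ U.card := by nlinarith
    by_cases hA : ∃ v ∈ U, (j + 2) * (s + 1) * (U.card - 2).choose j < dg F v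
    · obtain ⟨v, hv, hdv⟩ := hA
      set F' := F.filter (fun e => v ∉ e) with hF'
      have hcard : F'.card + dg F v = F.card := by
        rw [hF']
        unfold dg
        rw [add_comm]
        exact Finset.card_filter_add_card_filter_not (fun e => v ∈ e)
      have hUe : (U.erase v).card = U.card - 1 := Finset.card_erase_of_mem hv
      have hih : HasM F' (s + 1) := by
        apply ih (U.erase v) F'
        · intro e he
          rw [hF', Finset.mem_filter] at he
          obtain ⟨h1, h2⟩ := hF e he.1
          exact ⟨Finset.subset_erase.mpr ⟨h1, he.2⟩, h2⟩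
        · rw [hUe]
          have : 2 * (j + 2) ^ 3 * (s + 1 + 1) = 2 * (j + 2) ^ 3 * (s + 1) + 2 * (j + 2) ^ 3 := by
            ring
          omega
        · rw [hUe]
          have hdle := dg_le U F (j + 2) hF v hv
          have h1 : (j + 2) - 1 = j + 1 := by omega
          rw [h1] at hdle
          obtain ⟨m, hm⟩ : ∃ m, U.card = m + 1 := ⟨U.card - 1, by omega⟩
          rw [hm] at hc hdle ⊢
          simp only [Nat.add_sub_cancel] at hdle ⊢
          have h2 : m + 1 - (s + 1) = m - s := by omega
          rw [h2, Nat.choose_succ_succ] at hc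
          simp only [Nat.succ_eq_add_one] at hc
          have h3 : (m - s).choose (j + 2) ≤ m.choose (j + 2) := Nat.choose_le_choose _ (by omega)
          have h4 : j + 1 + 1 = j + 2 := rfl
          rw [h4] at hc
          omega
      obtain ⟨M, hMF, hM, hMc⟩ := hih
      set W := M.biUnion id with hW
      have hWc : W.card ≤ (j + 2) * (s + 1) := by
        calc W.card ≤ M.card * (j + 2) := by
              apply Finset.card_biUnion_le_card_mul
              intro e he
              have := hMF he
              rw [hF', Finset.mem_filter] at this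
              exact (hF e this.1).2.le
          _ = (j + 2) * (s + 1) := by rw [hMc]; ring
      have hWU : ∀ w ∈ W, w ∈ U ∧ v ≠ w := by
        intro w hw
        rw [hW, Finset.mem_biUnion] at hw
        obtain ⟨e, he, hwe⟩ := hw
        have := hMF he
        rw [hF', Finset.mem_filter] at this
        refine ⟨(hF e this.1).1 hwe, ?_⟩
        rintro rfl
        exact this.2 hwe
      have hex : ∃ e ∈ F, v ∈ e ∧ Disjoint e W := by
        by_contra hno
        push Not at hno
        have hsub : F.filter (fun e => v ∈ e) ⊆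
            W.biUnion (fun w => F.filter (fun e => v ∈ e ∧ w ∈ e)) := by
          intro e he
          rw [Finset.mem_filter] at he
          have h1 := hno e he.1 he.2
          rw [Finset.not_disjoint_iff] at h1
          obtain ⟨w, hwe, hwW⟩ := h1
          rw [Finset.mem_biUnion]
          exact ⟨w, hwW, Finset.mem_filter.mpr ⟨he.1, he.2, hwe⟩⟩
        have h2 : dg F v ≤ W.card * (U.card - 2).choose j := by
          unfold dg
          refine (Finset.card_le_card hsub).trans ?_
          apply Finset.card_biUnion_le_card_mul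
          intro w hw
          obtain ⟨a, b⟩ := hWU w hw
          have h3 := cod_le U F (j + 2) hF v w hv a b
          simpa using h3
        have h4 : W.card * (U.card - 2).choose j ≤ (j + 2) * (s + 1) * (U.card - 2).choose j :=
          Nat.mul_le_mul_right _ hWc
        omega
      obtain ⟨e, heF, hve, hdis⟩ := hex
      have := hasM_ins hM (fun f hf => Finset.mem_of_mem_filter f (hMF hf)) e heF ⟨v, hve⟩ hdis
      rw [hMc] at this
      exact this
    · push Not at hA
      by_contra hno
      obtain ⟨M, hMm, hMmax⟩ := Finset.exists_max_image (F.powerset.filter (fun M => Mtch M))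
        Finset.card ⟨∅, by
          rw [Finset.mem_filter]
          refine ⟨Finset.empty_mem_powerset _, ?_⟩
          intro e he
          exact absurd he (Finset.notMem_empty e)⟩
      rw [Finset.mem_filter, Finset.mem_powerset] at hMm
      obtain ⟨hMF, hM⟩ := hMm
      have hMs : M.card ≤ s + 1 := by
        by_contra hlt
        push Not at hlt
        obtain ⟨M', hM', hM'c⟩ := Finset.exists_subset_card_eq (s := M) (n := s + 1 + 1) (by omega)
        exact hno ⟨M', hM'.trans hMF, mtch_sub hM hM', hM'c⟩
      set W := M.biUnion id with hW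
      have hWc : W.card ≤ (j + 2) * (s + 1) := by
        calc W.card ≤ M.card * (j + 2) := by
              apply Finset.card_biUnion_le_card_mul
              intro e he
              exact (hF e (hMF he)).2.le
          _ ≤ (s + 1) * (j + 2) := Nat.mul_le_mul_right _ hMs
          _ = (j + 2) * (s + 1) := by ring
      have hmeet : ∀ e ∈ F, ¬ Disjoint e W := by
        intro e he hdis
        have hne : e.Nonempty := by
          rw [← Finset.card_pos, (hF e he).2]
          omega
        obtain ⟨M', h1, h2, h3⟩ := hasM_ins hM hMF e he hne hdis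
        have h4 := hMmax M' (Finset.mem_filter.mpr ⟨Finset.mem_powerset.mpr h1, h2⟩)
        omega
      have hsub : F ⊆ W.biUnion (fun w => F.filter (fun e => w ∈ e)) := by
        intro e he
        have h1 := hmeet e he
        rw [Finset.not_disjoint_iff] at h1
        obtain ⟨w, hwe, hwW⟩ := h1
        rw [Finset.mem_biUnion]
        exact ⟨w, hwW, Finset.mem_filter.mpr ⟨he, hwe⟩⟩
      have h1 : F.card ≤ W.card * ((j + 2) * (s + 1) * (U.card - 2).choose j) := by
        refine (Finset.card_le_card hsub).trans ?_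
        apply Finset.card_biUnion_le_card_mul
        intro w hw
        rw [hW, Finset.mem_biUnion] at hw
        obtain ⟨e, he, hwe⟩ := hw
        exact hA w ((hF e (hMF he)).1 hwe)
      have h2 : F.card ≤ ((j + 2) * (s + 1)) * ((j + 2) * (s + 1) * (U.card - 2).choose j) :=
        h1.trans (Nat.mul_le_mul_right _ hWc)
      have h3 := numK j (s + 1) U.card (by omega) hu
      have h4 := tel2 (U.card - (s + 1)) (j + 1) (s + 1)
      have h5 : U.card - (s + 1) + (s + 1) = U.card := by omega
      rw [h5] at h4
      have h6 : ((j + 2) * (s + 1)) * ((j + 2) * (s + 1) * (U.card - 2).choose j) =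
          (s + 1) * ((j + 2) ^ 2 * (s + 1) * (U.card - 2).choose j) := by ring
      have h7 : (s + 1) * ((j + 2) ^ 2 * (s + 1) * (U.card - 2).choose j) ≤
          (s + 1) * (U.card - (s + 1)).choose (j + 1) := Nat.mul_le_mul_left _ h3
      have h8 : j + 1 + 1 = j + 2 := rfl
      rw [h8] at h4
      omega

theorem bde : S_BDE := by
  intro k hk α _ U F s hF hu hc
  by_cases h1 : k = 1
  · subst h1
    simp only [Nat.choose_one_right, one_pow, mul_one] at hc hu
    have h2 : s + 1 ≤ F.card := by omega
    obtain ⟨M, hM, hMc⟩ := Finset.exists_subset_card_eq h2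
    refine ⟨M, hM, ?_, hMc⟩
    intro e he e' he' hne
    obtain ⟨x, rfl⟩ := Finset.card_eq_one.mp (hF e (hM he)).2
    obtain ⟨y, rfl⟩ := Finset.card_eq_one.mp (hF e' (hM he')).2
    rw [Finset.disjoint_singleton]
    rintro rfl
    exact hne rfl
  · obtain ⟨j, rfl⟩ : ∃ j, k = j + 2 := ⟨k - 2, by omega⟩
    exact bde_step j U F s hF hu hc

end Pool.Agent.W451.SAM
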